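import Mathlib
import Pool.Agent.U310.Idx.Nth

set_option autoImplicit false

/-! # Project TQ: statements.  MP_61a569_nt in the Cramer model -/

open MeasureTheory ProbabilityTheory Filter
open scoped Topology

namespace Pool.Agent.U310.TQ

open Pool.Agent.U310.Idx (St sp pe)

/-- independent Cramer model -/
structure Cr {Ω : Type} [mΩ : MeasurableSpace Ω] (μ : Measure Ω) (A : ℕ → Set Ω) : Prop where
  meas : ∀ n, MeasurableSet (A n)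
  ind : iIndepSet A μ
  dens : Tendsto (fun n : ℕ => μ.real (A n) * Real.log n) atTop (𝓝 1)

/-- partial sums -/
noncomputable def Rs (r : ℕ → ℝ) (x : ℕ) : ℝ := ∑ m ∈ Finset.Icc 1 x, r m

/-- package SMOOTH: few integers have only prime factors at most `(log n)^a` -/
def S_SMOOTH : Prop := ∀ a : ℕ, ∀ᶠ n : ℕ in atTop,
  (({m : ℕ | 1 ≤ m ∧ m ≤ n ∧ ∀ l : ℕ, l.Prime → l ∣ m → (l : ℝ) ≤ Real.log n ^ a}).ncard : ℝ) ≤ n / Real.log n ^ 2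

/-- the value `q(n,k)` -/
def qv (n k : ℕ) : ℕ := Nat.totient k + Nat.totient (n - k) / 2 + 1

/-- package VAL: many distinct values (from SMOOTH, Chebyshev, `k` prime, `m = n - k = r l` with `l > (log n)^a` prime:
`2 q(n,k) = 2 n - (2 m - φ(m))`, and `r` together with `2 m - φ(m)` and the truth of `l ∣ r` determine `l`) -/
def S_VAL : Prop := S_SMOOTH → ∀ a : ℕ, ∀ᶠ n : ℕ in atTop,
  Real.log n ^ a ≤ (((Finset.Ico 1 (n - 2)).image (qv n)).card : ℝ)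

/-- package PIG: pigeonhole -/
def S_PIG : Prop := ∀ᶠ N : ℕ in atTop, ∀ D : Finset ℕ, (∀ q ∈ D, 1 ≤ q ∧ q ≤ N + 1) → Real.log N ^ 30 ≤ (D.card : ℝ) →
  ∃ X : ℕ, ∃ B ⊆ D, Real.log N ≤ (X : ℝ) ∧ X ≤ N + 1 ∧ (∀ q ∈ B, X < q ∧ (q : ℝ) ≤ X + X / (100 * Real.log X)) ∧
    (∀ q ∈ B, ∀ q' ∈ B, q < q' → (q : ℝ) + 100 * Real.log N ^ 3 ≤ q') ∧ Real.log N ^ 8 ≤ (B.card : ℝ)

/-- package FILT: the natural filtration -/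
def S_FILT : Prop := ∀ {Ω : Type} [mΩ : MeasurableSpace Ω] (μ : Measure Ω) [IsProbabilityMeasure μ] (A : ℕ → Set Ω),
  (∀ n, MeasurableSet (A n)) → iIndepSet A μ →
  ∃ ℱ : Filtration ℕ mΩ, (∀ n, MeasurableSet[ℱ n] (A n)) ∧
    ∀ n, Pool.Agent.R528.RM.dens μ ℱ A n =ᵐ[μ] fun _ => μ.real (A (n + 1))

/-- package CNT: law of large numbers for the counting function -/
def S_CNT : Prop := S_FILT → ∀ {Ω : Type} [mΩ : MeasurableSpace Ω] (μ : Measure Ω) [IsProbabilityMeasure μ] (A : ℕ → Set Ω),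
  Cr μ A → ∀ᵐ ω ∂μ, ∀ᶠ x : ℕ in atTop,
    |((St A x ω).card : ℝ) - Rs (fun m => μ.real (A m)) x| ≤ √x * Real.log x ^ 2

/-- package WIN: short windows are not full -/
def S_WIN : Prop := S_FILT → ∀ {Ω : Type} [mΩ : MeasurableSpace Ω] (μ : Measure Ω) [IsProbabilityMeasure μ] (A : ℕ → Set Ω),
  Cr μ A → ∀ᵐ ω ∂μ, ∀ᶠ y : ℕ in atTop, ∃ s : Finset ℕ, 4 ≤ s.card ∧
    ∀ m ∈ s, y < m ∧ m ≤ y + ⌊Real.log y ^ 3⌋₊ ∧ ω ∉ A m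

/-- package THR: thresholds -/
def S_THR : Prop := ∀ r : ℕ → ℝ, (∀ m, 0 ≤ r m ∧ r m ≤ 1) → Tendsto (fun n : ℕ => r n * Real.log n) atTop (𝓝 1) →
  ∀ᶠ X : ℕ in atTop, ∃ x1 x2 : ℕ, Rs r x1 + √x1 * Real.log x1 ^ 2 < X ∧
    X + X / (100 * Real.log X) + 1 < Rs r x2 - √x2 * Real.log x2 ^ 2 ∧
    (x2 : ℝ) ≤ x1 + X / 4 ∧ 5 * X ≤ x1 ∧ x2 ≤ X ^ 2

/-- package PROD: the product formula -/
def S_PROD : Prop := ∀ {Ω : Type} [mΩ : MeasurableSpace Ω] (μ : Measure Ω) [IsProbabilityMeasure μ] (A : ℕ → Set Ω),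
  (∀ n, MeasurableSet (A n)) → iIndepSet A μ → ∀ (B : Finset ℕ) (τ : ℕ → ℕ) (ε : ℝ), 0 ≤ ε → ε ≤ 1 →
  (∀ q ∈ B, ∀ q' ∈ B, q + 2 ≤ τ q') → (∀ q ∈ B, ∀ q' ∈ B, q < q' → τ q + 3 ≤ τ q') →
  (∀ q ∈ B, ε ≤ μ.real (A q) ∧ ε ≤ μ.real (A (τ q - 1)) ∧ ε ≤ μ.real (A (τ q + 1))) →
  μ.real {ω | ∀ q ∈ B, ¬ (ω ∈ A q ∧ ω ∈ A (τ q - 1) ∧ ω ∈ A (τ q + 1))} ≤ (1 - ε ^ 3) ^ B.card

/-- package SUM: independence of the two ranges and the union bound over the number `c` of the chosen integers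
up to `x1`.  For `q ∈ B` the `q`-th chosen integer is the `(q - c)`-th chosen integer beyond `x1`. -/
def S_SUM : Prop := S_PROD → ∀ {Ω : Type} [mΩ : MeasurableSpace Ω] (μ : Measure Ω) [IsProbabilityMeasure μ] (A : ℕ → Set Ω),
  (∀ n, MeasurableSet (A n)) → iIndepSet A μ → ∀ (B : Finset ℕ) (x1 x2 b : ℕ) (ε : ℝ), 0 ≤ ε → ε ≤ 1 →
  (∀ q ∈ B, 1 ≤ q ∧ b ≤ q ∧ x2 + 1 ≤ x1 + q) → (∀ q ∈ B, ∀ q' ∈ B, q + q' + 2 ≤ x1) →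
  (∀ m, b ≤ m → m ≤ x1 → ε ≤ μ.real (A m)) →
  μ.real {ω | (setOf (sp A ω)).Infinite ∧ (∀ q ∈ B, x1 < pe A ω q ∧ pe A ω q ≤ x2) ∧
      (∀ q ∈ B, ∀ q' ∈ B, q < q' → pe A ω q - q + 3 ≤ pe A ω q' - q') ∧
      ∀ q ∈ B, ¬ (ω ∈ A q ∧ ω ∈ A (pe A ω q - q - 1) ∧ ω ∈ A (pe A ω q - q + 1))} ≤ (x1 + 1) * (1 - ε ^ 3) ^ B.card

end Pool.Agent.U310.TQ
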