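import Mathlib
import Pool.Agent.U310.TQ.Stm
import Pool.Agent.U310.Idx.Asy

set_option autoImplicit false
set_option linter.unusedSectionVars false

/-! # Project TQ: assembly -/

open MeasureTheory ProbabilityTheory Filter
open scoped Topology

namespace Pool.Agent.U310.TQ

open Pool.Agent.U310.Idx (St sp pe mem_St pe_mem pe_pos pe_ge pe_le_iff card_St_pe hlogn ev_pow)

variable {Ω : Type} [mΩ : MeasurableSpace Ω] {μ : Measure Ω} [IsProbabilityMeasure μ] {A : ℕ → Set Ω}

lemma pe_lt {ω : Ω} (hinf : (setOf (sp A ω)).Infinite) {q q' : ℕ} (hq : 1 ≤ q) (h : q < q') : pe A ω q < pe A ω q' := by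
  unfold pe
  exact Nat.nth_strictMono hinf (by omega)

lemma spacing {ω : Ω} (hinf : (setOf (sp A ω)).Infinite) {q q' K : ℕ} (hq : 1 ≤ q) (h : q < q') (s : Finset ℕ)
    (hs : 4 ≤ s.card) (hs' : ∀ m ∈ s, pe A ω q < m ∧ m ≤ pe A ω q + K ∧ ω ∉ A m) (hK : K < q' - q) :
    pe A ω q - q + 3 ≤ pe A ω q' - q' := by
  have h1 := card_St_pe hinf hq
  have h2 := card_St_pe hinf (show 1 ≤ q' by omega)
  have h3 := pe_lt hinf hq h
  have h4 := pe_ge hinf hq
  set a := pe A ω q with ha
  set b := pe A ω q' with hb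
  have hsub : St A (a - 1) ω ⊆ St A (b - 1) ω := by
    intro m hm
    rw [mem_St] at hm ⊢
    exact ⟨⟨hm.1.1, by omega⟩, hm.2⟩
  set U := St A (b - 1) ω \ St A (a - 1) ω with hU
  have hUc : U.card = q' - q := by
    rw [hU, Finset.card_sdiff_of_subset hsub]
    omega
  have hUsub : U ⊆ Finset.Icc a (b - 1) := by
    intro m hm
    rw [hU, Finset.mem_sdiff, mem_St, mem_St] at hm
    rw [Finset.mem_Icc]
    refine ⟨?_, hm.1.1.2⟩
    by_contra hc
    exact hm.2 ⟨⟨hm.1.1.1, by omega⟩, hm.1.2⟩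
  have h5 : q' - q ≤ b - a := by
    have := Finset.card_le_card hUsub
    rw [hUc, Nat.card_Icc] at this
    omega
  have hdis : Disjoint s U := by
    rw [Finset.disjoint_left]
    intro m hm hmU
    rw [hU, Finset.mem_sdiff, mem_St] at hmU
    exact (hs' m hm).2.2 hmU.1.2
  have hsU : s ∪ U ⊆ Finset.Icc a (b - 1) := by
    apply Finset.union_subset _ hUsub
    intro m hm
    have := hs' m hm
    rw [Finset.mem_Icc]
    omega
  have h6 := Finset.card_le_card hsU
  rw [Finset.card_union_of_disjoint hdis, hUc, Nat.card_Icc] at h6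
  omega

/-- success at `q` -/
def Suc (A : ℕ → Set Ω) (ω : Ω) (q : ℕ) : Prop := ω ∈ A q ∧ ω ∈ A (pe A ω q - q - 1) ∧ ω ∈ A (pe A ω q - q + 1)

lemma log_succ : ∀ᶠ n : ℕ in atTop, Real.log ((n + 1 : ℕ) : ℝ) ≤ 2 * Real.log n := by
  filter_upwards [eventually_ge_atTop 2] with n hn
  have h : (2 : ℝ) ≤ n := by exact_mod_cast hn
  have : Real.log ((n + 1 : ℕ) : ℝ) ≤ Real.log ((n : ℝ) ^ 2) := by
    apply Real.log_le_log (by positivity)
    push_cast
    nlinarith
  rw [Real.log_pow] at this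
  exact_mod_cast this

theorem sets (h3 : S_PIG) (h4 : S_FILT) (h5 : S_CNT) (h6 : S_WIN) (h7 : S_THR) (h8 : S_PROD) (h9 : S_SUM)
    (h : Cr μ A) (D : ℕ → Finset ℕ) (hD : ∀ᶠ n : ℕ in atTop, ∀ q ∈ D n, 1 ≤ q ∧ q ≤ n + 1)
    (hD2 : ∀ᶠ n : ℕ in atTop, Real.log n ^ 30 ≤ ((D n).card : ℝ)) :
    ∀ᵐ ω ∂μ, (setOf (sp A ω)).Infinite ∧ ∀ᶠ n : ℕ in atTop, ∃ q ∈ D n, Suc A ω q := by
  have hr01 : ∀ m, 0 ≤ μ.real (A m) ∧ μ.real (A m) ≤ 1 := fun m => ⟨measureReal_nonneg, measureReal_le_one⟩
  obtain ⟨X0, hX0⟩ := eventually_atTop.1 (h7 (fun m => μ.real (A m)) hr01 h.dens)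
  obtain ⟨m0, hm0⟩ := eventually_atTop.1 (h.dens.eventually (lt_mem_nhds (show (1 / 2 : ℝ) < 1 by norm_num)))
  -- the data
  have hdata : ∀ᶠ n : ℕ in atTop, ∃ X x1 x2 : ℕ, ∃ B ⊆ D n, Real.log n ≤ (X : ℝ) ∧ X ≤ n + 1 ∧
      (∀ q ∈ B, X < q ∧ (q : ℝ) ≤ X + X / (100 * Real.log X)) ∧
      (∀ q ∈ B, ∀ q' ∈ B, q < q' → (q : ℝ) + 100 * Real.log n ^ 3 ≤ q') ∧ Real.log n ^ 8 ≤ (B.card : ℝ) ∧
      Rs (fun m => μ.real (A m)) x1 + √x1 * Real.log x1 ^ 2 < X ∧
      X + X / (100 * Real.log X) + 1 < Rs (fun m => μ.real (A m)) x2 - √x2 * Real.log x2 ^ 2 ∧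
      (x2 : ℝ) ≤ x1 + X / 4 ∧ 5 * X ≤ x1 ∧ x2 ≤ X ^ 2 := by
    filter_upwards [h3, hD, hD2, hlogn.eventually_ge_atTop (X0 : ℝ)] with n e1 e2 e3 e4
    obtain ⟨X, B, hB, f1, f2, f3, f4, f5⟩ := e1 (D n) e2 e3
    have hX : X0 ≤ X := by
      have : (X0 : ℝ) ≤ X := e4.trans f1
      exact_mod_cast this
    obtain ⟨x1, x2, g1, g2, g3, g4, g5⟩ := hX0 X hX
    exact ⟨X, x1, x2, B, hB, f1, f2, f3, f4, f5, g1, g2, g3, g4, g5⟩
  obtain ⟨n0, hn0⟩ := eventually_atTop.1 hdata
  choose! X x1 x2 B hB f1 f2 f3 f4 f5 g1 g2 g3 g4 g5 using hn0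
  set E : ℕ → Set Ω := fun n => {ω | (setOf (sp A ω)).Infinite ∧ (∀ q ∈ B n, x1 n < pe A ω q ∧ pe A ω q ≤ x2 n) ∧
      (∀ q ∈ B n, ∀ q' ∈ B n, q < q' → pe A ω q - q + 3 ≤ pe A ω q' - q') ∧
      ∀ q ∈ B n, ¬ (ω ∈ A q ∧ ω ∈ A (pe A ω q - q - 1) ∧ ω ∈ A (pe A ω q - q + 1))} with hE
  have hXinf : Tendsto (fun n => (X n : ℝ)) atTop atTop := by
    refine tendsto_atTop_mono' _ ?_ hlogn
    filter_upwards [eventually_ge_atTop n0] with n hn
    exact f1 n hn
  have hXinf' : Tendsto X atTop atTop := tendsto_natCast_atTop_iff.1 hXinf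
  have hEs : ∀ᶠ n : ℕ in atTop, μ.real (E n) ≤ 1 / (n : ℝ) ^ 2 := by
    filter_upwards [eventually_ge_atTop n0, hXinf'.eventually_ge_atTop (max m0 3), log_succ,
      hlogn.eventually_ge_atTop 3000, eventually_ge_atTop 10] with n hn hXn hls hL hn10
    have hnR : (10 : ℝ) ≤ n := by exact_mod_cast hn10
    have hX3 : 3 ≤ X n := le_trans (le_max_right _ _) hXn
    have hXm : m0 ≤ X n := le_trans (le_max_left _ _) hXn
    have hX3R : (3 : ℝ) ≤ X n := by exact_mod_cast hX3
    have hlX : 1 < Real.log (X n) := by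
      have := Pool.Agent.U310.Idx.log3
      exact this.trans_le (Real.log_le_log (by norm_num) hX3R)
    set L := Real.log n with hLd
    set L1 := Real.log ((n + 1 : ℕ) : ℝ) with hL1
    have hLL : L ≤ L1 := Real.log_le_log (by linarith) (by push_cast; linarith)
    have hL1pos : 0 < L1 := by linarith
    have hq2 : ∀ q ∈ B n, (q : ℝ) ≤ 2 * X n := by
      intro q hq
      have e1 := (f3 n hn q hq).2
      have e2 : (X n : ℝ) / (100 * Real.log (X n)) ≤ X n := div_le_self (by linarith) (by linarith)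
      linarith
    have h1 := h9 h8 μ A h.meas h.ind (B n) (x1 n) (x2 n) (X n) (1 / (4 * L1)) (by positivity)
      (by rw [div_le_one (by positivity)]; linarith)
      (by
        intro q hq
        have e1 := (f3 n hn q hq).1
        refine ⟨by omega, by omega, ?_⟩
        have e2 := g3 n hn
        have e3 : ((x2 n : ℕ) : ℝ) + 1 ≤ x1 n + q := by
          have : (X n : ℝ) + 1 ≤ q := by exact_mod_cast e1
          linarith
        exact_mod_cast e3)
      (by
        intro q hq q' hq'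
        have e1 := hq2 q hq
        have e2 := hq2 q' hq'
        have e3 : (5 : ℝ) * X n ≤ x1 n := by exact_mod_cast g4 n hn
        have e4 : (q : ℝ) + q' + 2 ≤ x1 n := by linarith
        exact_mod_cast e4)
      (by
        intro m hm hm2
        have e1 := hm0 m (hXm.trans hm)
        have hmpos : 0 < Real.log m := Real.log_pos (by exact_mod_cast (by omega : 1 < m))
        have e2 : Real.log m ≤ 2 * L1 := by
          have : Real.log m ≤ Real.log ((((n + 1 : ℕ) : ℝ)) ^ 2) := by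
            apply Real.log_le_log (by exact_mod_cast (by omega : 0 < m))
            have e3 : m ≤ (n + 1) ^ 2 := by
              have a1 : x1 n ≤ x2 n := by
                by_contra hcc
                push_neg at hcc
                have a2 := g1 n hn
                have a3 := g2 n hn
                have a4 : Rs (fun m => μ.real (A m)) (x2 n) ≤ Rs (fun m => μ.real (A m)) (x1 n) := by
                  unfold Rs
                  exact Finset.sum_le_sum_of_subset_of_nonneg (Finset.Icc_subset_Icc_right hcc.le) fun m _ _ => (hr01 m).1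
                have a5 : 0 ≤ √(x1 n : ℝ) * Real.log (x1 n) ^ 2 := by positivity
                have a6 : 0 ≤ √(x2 n : ℝ) * Real.log (x2 n) ^ 2 := by positivity
                have a7 : 0 ≤ (X n : ℝ) / (100 * Real.log (X n)) := by positivity
                linarith
              calc m ≤ x2 n := hm2.trans a1
                _ ≤ X n ^ 2 := g5 n hn
                _ ≤ (n + 1) ^ 2 := Nat.pow_le_pow_left (f2 n hn) 2
            exact_mod_cast e3
          rw [Real.log_pow] at this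
          exact_mod_cast this
        rw [div_le_iff₀ (by positivity)]
        have e3 : μ.real (A m) * Real.log m ≤ μ.real (A m) * (2 * L1) := mul_le_mul_of_nonneg_left e2 (hr01 m).1
        linarith)
    refine h1.trans ?_
    -- numerical bound
    have hx1 : ((x1 n : ℕ) : ℝ) + 1 ≤ (n : ℝ) ^ 3 := by
      have a1 : (x1 n : ℝ) ≤ ((n : ℝ) + 1) ^ 2 := by
        have a2 := g1 n hn
        have a3 := g2 n hn
        by_contra hcc
        push_neg at hcc
        have a8 : x2 n < x1 n := by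
          have b1 : ((x2 n : ℕ) : ℝ) ≤ ((n : ℝ) + 1) ^ 2 := by
            have : x2 n ≤ (n + 1) ^ 2 := (g5 n hn).trans (Nat.pow_le_pow_left (f2 n hn) 2)
            exact_mod_cast this
          have : ((x2 n : ℕ) : ℝ) < x1 n := by linarith
          exact_mod_cast this
        have a4 : Rs (fun m => μ.real (A m)) (x2 n) ≤ Rs (fun m => μ.real (A m)) (x1 n) := by
          unfold Rs
          exact Finset.sum_le_sum_of_subset_of_nonneg (Finset.Icc_subset_Icc_right a8.le) fun m _ _ => (hr01 m).1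
        have a5 : 0 ≤ √(x1 n : ℝ) * Real.log (x1 n) ^ 2 := by positivity
        have a6 : 0 ≤ √(x2 n : ℝ) * Real.log (x2 n) ^ 2 := by positivity
        have a7 : 0 ≤ (X n : ℝ) / (100 * Real.log (X n)) := by positivity
        linarith
      nlinarith
    have hexp : (1 - (1 / (4 * L1)) ^ 3) ^ (B n).card ≤ Real.exp (-(5 * L)) := by
      have a1 : (1 - (1 / (4 * L1)) ^ 3 : ℝ) ≤ Real.exp (-((1 / (4 * L1)) ^ 3)) := by
        have := Real.add_one_le_exp (-((1 / (4 * L1)) ^ 3))
        linarith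
      have a0 : (0 : ℝ) ≤ 1 - (1 / (4 * L1)) ^ 3 := by
        have : (1 / (4 * L1)) ^ 3 ≤ 1 := pow_le_one₀ (by positivity) (by rw [div_le_one (by positivity)]; linarith)
        linarith
      have a2 := pow_le_pow_left₀ a0 a1 (B n).card
      refine a2.trans ?_
      rw [← Real.exp_nat_mul]
      apply Real.exp_le_exp.2
      have a3 := f5 n hn
      have a4 : (1 / (4 * L1)) ^ 3 = 1 / (64 * L1 ^ 3) := by rw [div_pow]; ring
      rw [a4]
      have a5 : 5 * L ≤ (B n).card * (1 / (64 * L1 ^ 3)) := by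
        rw [mul_one_div, le_div_iff₀ (by positivity)]
        have b1 : L1 ^ 3 ≤ (2 * L) ^ 3 := pow_le_pow_left₀ hL1pos.le hls 3
        have b2 : 5 * L * (64 * L1 ^ 3) ≤ 5 * L * (64 * (2 * L) ^ 3) := by
          apply mul_le_mul_of_nonneg_left _ (by linarith)
          linarith
        have b3 : 5 * L * (64 * (2 * L) ^ 3) = 2560 * L ^ 4 := by ring
        have b4 : 2560 * L ^ 4 ≤ L ^ 8 := by
          have : (2560 : ℝ) ≤ L ^ 4 := by
            calc (2560 : ℝ) ≤ L := by linarith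
              _ ≤ L ^ 4 := le_self_pow₀ (by linarith) (by norm_num)
          calc 2560 * L ^ 4 ≤ L ^ 4 * L ^ 4 := by gcongr
            _ = L ^ 8 := by ring
        linarith
      linarith
    have hexp2 : Real.exp (-(5 * L)) = 1 / (n : ℝ) ^ 5 := by
      rw [Real.exp_neg, one_div]
      congr 1
      rw [show 5 * L = Real.log ((n : ℝ) ^ 5) by rw [Real.log_pow]; norm_num; rfl, Real.exp_log (by positivity)]
    calc ((x1 n : ℕ) + 1 : ℝ) * (1 - (1 / (4 * L1)) ^ 3) ^ (B n).card ≤ (n : ℝ) ^ 3 * (1 / (n : ℝ) ^ 5) := by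
          rw [← hexp2]
          have a0 : (0 : ℝ) ≤ 1 - (1 / (4 * L1)) ^ 3 := by
            have : (1 / (4 * L1)) ^ 3 ≤ 1 := pow_le_one₀ (by positivity) (by rw [div_le_one (by positivity)]; linarith)
            linarith
          exact mul_le_mul hx1 hexp (by positivity) (by positivity)
      _ = 1 / (n : ℝ) ^ 2 := by
          have : (n : ℝ) ≠ 0 := by linarith
          field_simp
  have hBC := Pool.Agent.R528.RM.bc_real (μ := μ) (Real.summable_one_div_nat_pow.2 (by norm_num : 1 < 2)) hEs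
  filter_upwards [hBC, h5 h4 μ A h, h6 h4 μ A h] with ω w1 w2 w3
  obtain ⟨c0, hc0⟩ := eventually_atTop.1 w2
  obtain ⟨y0, hy0⟩ := eventually_atTop.1 w3
  -- counting at `x1`, `x2`
  have hcnt : ∀ᶠ n : ℕ in atTop, (St A (x1 n) ω).card < X n ∧
      (X n : ℝ) + X n / (100 * Real.log (X n)) + 1 < ((St A (x2 n) ω).card : ℝ) := by
    filter_upwards [eventually_ge_atTop n0, hXinf'.eventually_ge_atTop (max c0 3)] with n hn hXn
    have hXc : c0 ≤ X n := le_trans (le_max_left _ _) hXn
    have hX3 : 3 ≤ X n := le_trans (le_max_right _ _) hXn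
    have e1 := g1 n hn
    have e2 := g2 n hn
    have e4 := g4 n hn
    have k1 := abs_le.1 (hc0 (x1 n) (by omega))
    have hx2 : c0 ≤ x2 n := by
      have a1 : Rs (fun m => μ.real (A m)) (x2 n) ≤ x2 n := by
        unfold Rs
        calc _ ≤ ∑ m ∈ Finset.Icc 1 (x2 n), (1 : ℝ) := Finset.sum_le_sum fun m _ => (hr01 m).2
          _ = x2 n := by simp
      have a2 : 0 ≤ √(x2 n : ℝ) * Real.log (x2 n) ^ 2 := by positivity
      have a3 : 0 ≤ (X n : ℝ) / (100 * Real.log (X n)) := by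
        have : 0 ≤ Real.log (X n) := Real.log_nonneg (by exact_mod_cast (by omega : 1 ≤ X n))
        positivity
      have a4 : (X n : ℝ) ≤ x2 n := by linarith
      have a5 : X n ≤ x2 n := by exact_mod_cast a4
      omega
    have k2 := abs_le.1 (hc0 (x2 n) hx2)
    constructor
    · have : ((St A (x1 n) ω).card : ℝ) < X n := by linarith [k1.2]
      exact_mod_cast this
    · linarith [k2.1]
  have hinf : (setOf (sp A ω)).Infinite := by
    by_contra hfin
    rw [Set.not_infinite] at hfin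
    obtain ⟨n, hn1, hn2⟩ := (hcnt.and (hXinf'.eventually_ge_atTop (hfin.toFinset.card + 3))).exists
    have e1 : (St A (x2 n) ω).card ≤ hfin.toFinset.card := by
      apply Finset.card_le_card
      intro m hm
      rw [mem_St] at hm
      rw [Set.Finite.mem_toFinset]
      exact ⟨hm.1.1, hm.2⟩
    have e2 : (X n : ℝ) < ((St A (x2 n) ω).card : ℝ) := by
      have a3 : 0 ≤ (X n : ℝ) / (100 * Real.log (X n)) := by
        have : 0 ≤ Real.log (X n) := Real.log_nonneg (by exact_mod_cast (by omega : 1 ≤ X n))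
        positivity
      linarith [hn1.2]
    have e3 : X n < (St A (x2 n) ω).card := by exact_mod_cast e2
    omega
  refine ⟨hinf, ?_⟩
  filter_upwards [w1, hcnt, eventually_ge_atTop n0, hXinf'.eventually_ge_atTop (max y0 3), log_succ,
    hlogn.eventually_ge_atTop 1] with n e1 e2 hn hXn hls hL
  by_contra hcon
  push_neg at hcon
  apply e1
  have hX3 : 3 ≤ X n := le_trans (le_max_right _ _) hXn
  have hXy : y0 ≤ X n := le_trans (le_max_left _ _) hXn
  have hpe : ∀ q ∈ B n, x1 n < pe A ω q ∧ pe A ω q ≤ x2 n := by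
    intro q hq
    have a1 := f3 n hn q hq
    have hq1 : 1 ≤ q := by omega
    constructor
    · by_contra hc
      push_neg at hc
      have := (pe_le_iff hinf hq1).1 hc
      omega
    · rw [pe_le_iff hinf hq1]
      have : (q : ℝ) ≤ ((St A (x2 n) ω).card : ℝ) := by linarith [a1.2, e2.2]
      exact_mod_cast this
  refine ⟨hinf, hpe, ?_, ?_⟩
  · intro q hq q' hq' hqq
    have a1 := (f3 n hn q hq).1
    have hq1 : 1 ≤ q := by omega
    have a2 := (hpe q hq)
    have a3 := g4 n hn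
    obtain ⟨s, hs1, hs2⟩ := hy0 (pe A ω q) (by omega)
    refine spacing hinf hq1 hqq s hs1 hs2 ?_
    have a4 := f4 n hn q hq q' hq' hqq
    have a5 : (⌊Real.log (pe A ω q) ^ 3⌋₊ : ℝ) ≤ Real.log (pe A ω q) ^ 3 := by
      apply Nat.floor_le
      have : 0 ≤ Real.log (pe A ω q) := Real.log_nonneg (by exact_mod_cast pe_pos hinf q)
      positivity
    have a6 : Real.log (pe A ω q) ≤ 4 * Real.log n := by
      have b1 : pe A ω q ≤ (n + 1) ^ 2 := a2.2.trans ((g5 n hn).trans (Nat.pow_le_pow_left (f2 n hn) 2))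
      have b2 : Real.log (pe A ω q) ≤ Real.log (((n + 1 : ℕ) : ℝ) ^ 2) := by
        apply Real.log_le_log (by exact_mod_cast pe_pos hinf q)
        exact_mod_cast b1
      rw [Real.log_pow] at b2
      push_cast at b2 hls
      linarith
    have a7 : Real.log (pe A ω q) ^ 3 ≤ (4 * Real.log n) ^ 3 :=
      pow_le_pow_left₀ (Real.log_nonneg (by exact_mod_cast pe_pos hinf q)) a6 3
    have a8 : (4 * Real.log n) ^ 3 = 64 * Real.log n ^ 3 := by ring
    have a9 : 1 ≤ Real.log n ^ 3 := one_le_pow₀ hL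
    have a10 : (⌊Real.log (pe A ω q) ^ 3⌋₊ : ℝ) + q < q' := by linarith
    have a11 : ⌊Real.log (pe A ω q) ^ 3⌋₊ + q < q' := by exact_mod_cast a10
    omega
  · intro q hq hsuc
    exact hcon q (hB n hn hq) hsuc

end Pool.Agent.U310.TQ
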