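import Mathlib
import Pool.Agent.U310.TQ.Asm

set_option autoImplicit false
set_option linter.unusedSectionVars false

/-! # Project TQ: many successes -/

open MeasureTheory ProbabilityTheory Filter
open scoped Topology

namespace Pool.Agent.U310.TQ

open Pool.Agent.U310.Idx (St sp pe mem_St pe_mem pe_pos pe_ge pe_le_iff card_St_pe hlogn ev_pow)

variable {Ω : Type} [mΩ : MeasurableSpace Ω] {μ : Measure Ω} [IsProbabilityMeasure μ] {A : ℕ → Set Ω}

/-- disjoint parts of size `s` -/
lemma parts (D : Finset ℕ) (s : ℕ) : ∃ P : ℕ → Finset ℕ, (∀ i, P i ⊆ D) ∧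
    (∀ i j, i ≠ j → Disjoint (P i) (P j)) ∧ ∀ i, (i + 1) * s ≤ D.card → (P i).card = s := by
  classical
  rcases Nat.eq_zero_or_pos s with hs | hs
  · exact ⟨fun _ => ∅, fun _ => Finset.empty_subset _, fun _ _ _ => Finset.disjoint_empty_left _, fun _ _ => by simp [hs]⟩
  set e := D.orderEmbOfFin rfl with he
  refine ⟨fun i => (Finset.univ.filter (fun j : Fin D.card => j.val / s = i)).map e.toEmbedding, ?_, ?_, ?_⟩
  · intro i q hq
    rw [Finset.mem_map] at hq
    obtain ⟨j, _, rfl⟩ := hq
    exact Finset.orderEmbOfFin_mem D rfl j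
  · intro i i' hii
    rw [Finset.disjoint_left]
    intro q hq hq'
    rw [Finset.mem_map] at hq hq'
    obtain ⟨j, hj, rfl⟩ := hq
    obtain ⟨j', hj', h⟩ := hq'
    have : j' = j := e.toEmbedding.injective h
    rw [this] at hj'
    rw [Finset.mem_filter] at hj hj'
    exact hii (hj.2.symm.trans hj'.2)
  · intro i hi
    rw [Finset.card_map]
    have h1 : (Finset.univ.filter (fun j : Fin D.card => j.val / s = i)).card = (Finset.Ico (i * s) ((i + 1) * s)).card := by
      refine Finset.card_nbij' (fun j => j.val) (fun m => if h : m < D.card then ⟨m, h⟩ else ⟨0, by nlinarith⟩) ?_ ?_ ?_ ?_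
      · intro j hj
        simp only [Finset.coe_filter, Finset.mem_univ, true_and, Set.mem_setOf_eq] at hj
        simp only [Finset.coe_Ico, Set.mem_Ico]
        rw [Nat.div_eq_iff hs] at hj
        constructor
        · omega
        · have : (i + 1) * s = i * s + s := by ring
          omega
      · intro m hm
        simp only [Finset.coe_Ico, Set.mem_Ico] at hm
        have hlt : m < D.card := by omega
        simp only [Finset.coe_filter, Finset.mem_univ, true_and, Set.mem_setOf_eq, dif_pos hlt]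
        rw [Nat.div_eq_iff hs]
        have : (i + 1) * s = i * s + s := by ring
        omega
      · intro j _
        simp
      · intro m hm
        simp only [Finset.coe_Ico, Set.mem_Ico] at hm
        have hlt : m < D.card := by omega
        simp [hlt]
    rw [h1, Nat.card_Ico]
    have : (i + 1) * s = i * s + s := by ring
    omega

open Classical in
/-- **many successes** -/
theorem many (h3 : S_PIG) (h4 : S_FILT) (h5 : S_CNT) (h6 : S_WIN) (h7 : S_THR) (h8 : S_PROD) (h9 : S_SUM)
    (h : Cr μ A) (D : ℕ → Finset ℕ) (hD : ∀ n, ∀ q ∈ D n, 1 ≤ q ∧ q ≤ n + 1) :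
    ∀ᵐ ω ∂μ, (setOf (sp A ω)).Infinite ∧ ∀ᶠ n : ℕ in atTop,
      ((D n).card : ℝ) ≤ Real.log n ^ 31 * (1 + (((D n).filter (fun q => Suc A ω q)).card : ℝ)) := by
  set s : ℕ → ℕ := fun n => ⌈(4 * Real.log n) ^ 30⌉₊ with hs
  choose P hP1 hP2 hP3 using fun n => parts (D n) (s n)
  set D' : ℕ → Finset ℕ := fun j => if (j - Nat.sqrt j ^ 2 + 1) * s (Nat.sqrt j) ≤ (D (Nat.sqrt j)).card then
    P (Nat.sqrt j) (j - Nat.sqrt j ^ 2) else Finset.Icc 1 (Nat.sqrt j + 1) with hD'
  have hsq : Tendsto Nat.sqrt atTop atTop := by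
    refine tendsto_atTop_mono (fun n => ?_) (tendsto_id (α := ℕ) |>.comp (f := Nat.sqrt) ?_)
    · exact le_rfl
    · rw [tendsto_atTop]
      intro b
      filter_upwards [eventually_ge_atTop (b ^ 2)] with n hn
      exact Nat.le_sqrt'.2 hn
  have hc1 : ∀ᶠ j : ℕ in atTop, ∀ q ∈ D' j, 1 ≤ q ∧ q ≤ j + 1 := by
    refine Eventually.of_forall fun j q hq => ?_
    have hsj : Nat.sqrt j ≤ j := Nat.sqrt_le_self j
    simp only [hD'] at hq
    split_ifs at hq
    · have := hD (Nat.sqrt j) q (hP1 _ _ hq)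
      omega
    · rw [Finset.mem_Icc] at hq
      omega
  have hlogs : ∀ᶠ n : ℕ in atTop, ∀ i : ℕ, i ≤ 2 * n → Real.log ((n ^ 2 + i : ℕ) : ℝ) ≤ 4 * Real.log n := by
    filter_upwards [eventually_ge_atTop 2] with n hn i hi
    have h2 : (2 : ℝ) ≤ n := by exact_mod_cast hn
    have : Real.log ((n ^ 2 + i : ℕ) : ℝ) ≤ Real.log ((n : ℝ) ^ 4) := by
      apply Real.log_le_log
      · exact_mod_cast (by nlinarith : 0 < n ^ 2 + i)
      · have h3 : ((n ^ 2 + i : ℕ) : ℝ) ≤ (n : ℝ) ^ 2 + 2 * n := by push_cast; have : (i : ℝ) ≤ 2 * n := by exact_mod_cast hi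
                                                                    linarith
        refine h3.trans ?_
        have h4 : (4 : ℝ) ≤ (n : ℝ) ^ 2 := by nlinarith
        nlinarith
    rw [Real.log_pow] at this
    exact_mod_cast this
  have hc2 : ∀ᶠ j : ℕ in atTop, Real.log j ^ 30 ≤ ((D' j).card : ℝ) := by
    have e1 := hsq.eventually hlogs
    have e2 := hsq.eventually (ev_pow 31)
    have e3 := hsq.eventually (hlogn.eventually_ge_atTop (4 ^ 30))
    filter_upwards [e1, e2, e3, eventually_ge_atTop 1] with j f1 f2 f3 f4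
    set n := Nat.sqrt j with hn
    have g1 : n ^ 2 ≤ j := Nat.sqrt_le' j
    have g2 : j ≤ n ^ 2 + 2 * n := by
      have := Nat.sqrt_le_add j
      rw [← hn] at this
      nlinarith
    have g3 : Real.log j ≤ 4 * Real.log n := by
      have := f1 (j - n ^ 2) (by omega)
      rwa [show n ^ 2 + (j - n ^ 2) = j by omega] at this
    have g4 : Real.log j ^ 30 ≤ (4 * Real.log n) ^ 30 :=
      pow_le_pow_left₀ (Real.log_nonneg (by exact_mod_cast f4)) g3 30
    simp only [hD']
    split_ifs with hc
    · rw [hP3 _ _ hc]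
      exact g4.trans (Nat.le_ceil _)
    · rw [Nat.card_Icc, Nat.add_sub_cancel]
      push_cast
      have g5 : (4 * Real.log n) ^ 30 ≤ Real.log n ^ 31 := by
        rw [mul_pow]
        have : 0 ≤ Real.log n := by linarith [show (0 : ℝ) ≤ 4 ^ 30 by positivity]
        calc (4 : ℝ) ^ 30 * Real.log n ^ 30 ≤ Real.log n * Real.log n ^ 30 := by gcongr
          _ = _ := by ring
      linarith
  filter_upwards [sets h3 h4 h5 h6 h7 h8 h9 h D' hc1 hc2] with ω hω
  refine ⟨hω.1, ?_⟩
  obtain ⟨j0, hj0⟩ := eventually_atTop.1 hω.2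
  filter_upwards [eventually_ge_atTop (max j0 1), hlogn.eventually_ge_atTop (2 * 4 ^ 30)] with n hn hL
  have hnj : j0 ≤ n := le_trans (le_max_left _ _) hn
  have hn1 : 1 ≤ n := le_trans (le_max_right _ _) hn
  set F := (D n).card / s n with hF
  have hspos : 0 < s n := by
    simp only [hs]
    rw [Nat.ceil_pos]
    have : 0 < Real.log n := by linarith [show (0 : ℝ) < 2 * 4 ^ 30 by positivity]
    positivity
  have hDcard : (D n).card ≤ n + 1 := by
    have : D n ⊆ Finset.Icc 1 (n + 1) := fun q hq => Finset.mem_Icc.2 (hD n q hq)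
    have := Finset.card_le_card this
    rwa [Nat.card_Icc, Nat.add_sub_cancel] at this
  have hFle : F ≤ n + 1 := (Nat.div_le_self _ _).trans hDcard
  have hsuc : ∀ i, i < F → ∃ q ∈ P n i, Suc A ω q := by
    intro i hi
    have h1 : Nat.sqrt (n ^ 2 + i) = n := by
      rw [Nat.sqrt_add_eq' n (by omega)]
    have h2 := hj0 (n ^ 2 + i) (by nlinarith)
    simp only [hD', h1] at h2
    rw [show n ^ 2 + i - n ^ 2 = i by omega] at h2
    have h3 : (i + 1) * s n ≤ (D n).card := by
      calc (i + 1) * s n ≤ F * s n := Nat.mul_le_mul_right _ hi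
        _ ≤ _ := Nat.div_mul_le_self _ _
    rw [if_pos h3] at h2
    exact h2
  have h1 : ∀ i, ∃ q, i < F → (q ∈ P n i ∧ Suc A ω q) := by
    intro i
    by_cases hi : i < F
    · obtain ⟨q, hq⟩ := hsuc i hi
      exact ⟨q, fun _ => hq⟩
    · exact ⟨0, fun h => absurd h hi⟩
  choose f hf using h1
  have h2 : F ≤ ((D n).filter (fun q => Suc A ω q)).card := by
    calc F = (Finset.range F).card := (Finset.card_range F).symm
      _ ≤ _ := by
        refine Finset.card_le_card_of_injOn f ?_ ?_
        · intro i hi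
          have hi' := Finset.mem_range.1 hi
          have := hf i hi'
          simp only [Finset.coe_filter, Set.mem_setOf_eq]
          exact ⟨hP1 _ _ this.1, this.2⟩
        · intro i hi i' hi' hii
          by_contra hne
          have a1 := (hf i (Finset.mem_range.1 hi)).1
          have a2 := (hf i' (Finset.mem_range.1 hi')).1
          rw [hii] at a1
          exact Finset.disjoint_left.1 (hP2 n i i' hne) a1 a2
  have h3 : (D n).card < s n * (F + 1) := by
    rw [hF]
    exact Nat.lt_mul_div_succ _ hspos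
  have h4 : (s n : ℝ) ≤ Real.log n ^ 31 := by
    simp only [hs]
    have hL1 : 1 ≤ Real.log n := by
      have : (1 : ℝ) ≤ 2 * 4 ^ 30 := by norm_num
      linarith
    have b1 : (⌈(4 * Real.log n) ^ 30⌉₊ : ℝ) < (4 * Real.log n) ^ 30 + 1 := Nat.ceil_lt_add_one (by positivity)
    have b2 : (1 : ℝ) ≤ (4 * Real.log n) ^ 30 := one_le_pow₀ (by linarith)
    have b3 : 2 * (4 * Real.log n) ^ 30 ≤ Real.log n ^ 31 := by
      rw [mul_pow]
      calc 2 * ((4 : ℝ) ^ 30 * Real.log n ^ 30) = (2 * 4 ^ 30) * Real.log n ^ 30 := by ring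
        _ ≤ Real.log n * Real.log n ^ 30 := by gcongr
        _ = _ := by ring
    linarith
  have h5 : ((D n).card : ℝ) ≤ (s n : ℝ) * (F + 1) := by exact_mod_cast h3.le
  calc ((D n).card : ℝ) ≤ (s n : ℝ) * (F + 1) := h5
    _ ≤ Real.log n ^ 31 * (1 + (((D n).filter (fun q => Suc A ω q)).card : ℝ)) := by
        have h6 : (F : ℝ) ≤ (((D n).filter (fun q => Suc A ω q)).card : ℝ) := by exact_mod_cast h2
        apply mul_le_mul h4 (by linarith) (by positivity)
        have : 0 ≤ Real.log n := by linarith [show (0 : ℝ) ≤ 2 * 4 ^ 30 by positivity]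
        positivity

end Pool.Agent.U310.TQ
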