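import Mathlib
import Pool.Agent.U310.TQ.Many

set_option autoImplicit false

/-! # Project TQ: the statement in plain terms, from the packages -/

open MeasureTheory ProbabilityTheory Filter
open scoped Topology

namespace Pool.Agent.U310.TQ.Pre

open Pool.Agent.U310.Idx (sp pe hlogn)
open Pool.Agent.U310.TQ

/-- An independent (Cramer) model of the primes: the events `S n` (`n` is chosen) are independent and
`P(S n) log n → 1`. -/
structure Cramer {Ω : Type} [mΩ : MeasurableSpace Ω] (μ : Measure Ω) (S : ℕ → Set Ω) : Prop where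
  meas : ∀ n, MeasurableSet (S n)
  ind : iIndepSet S μ
  dens : Tendsto (fun n : ℕ => μ.real (S n) * Real.log n) atTop (𝓝 1)

/-- the set of the chosen positive integers -/
def chosen {Ω : Type} (S : ℕ → Set Ω) (ω : Ω) : Set ℕ := {m | 1 ≤ m ∧ ω ∈ S m}

/-- the `j`-th chosen positive integer, `j ≥ 1` -/
noncomputable def p {Ω : Type} (S : ℕ → Set Ω) (ω : Ω) (j : ℕ) : ℕ := Nat.nth (· ∈ chosen S ω) (j - 1)

/-- `r`, `p_r - r - 1` and `p_r - r + 1` are chosen -/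
def Good {Ω : Type} (S : ℕ → Set Ω) (ω : Ω) (r : ℕ) : Prop :=
  ω ∈ S r ∧ ω ∈ S (p S ω r - r - 1) ∧ ω ∈ S (p S ω r - r + 1)

/-- `q(n,k) = φ(k) + φ(n - k) / 2 + 1` -/
def q (n k : ℕ) : ℕ := Nat.totient k + Nat.totient (n - k) / 2 + 1

/-- the values `q(n,k)`, `1 ≤ k < n - 2` -/
def values (n : ℕ) : Set ℕ := {r | ∃ k, 1 ≤ k ∧ k < n - 2 ∧ q n k = r}

theorem main (h1 : S_SMOOTH) (h2 : S_VAL) (h3 : S_PIG) (h4 : S_FILT) (h5 : S_CNT) (h6 : S_WIN) (h7 : S_THR)
    (h8 : S_PROD) (h9 : S_SUM) :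
    (∀ a : ℕ, ∀ᶠ n : ℕ in atTop, Real.log n ^ a ≤ ((values n).ncard : ℝ)) ∧
    ∀ {Ω : Type} [mΩ : MeasurableSpace Ω] (μ : Measure Ω) [IsProbabilityMeasure μ] (S : ℕ → Set Ω), Cramer μ S →
      (∀ D : ℕ → Set ℕ, (∀ n, D n ⊆ Set.Icc 1 (n + 1)) → ∀ᵐ ω ∂μ, ∀ᶠ n : ℕ in atTop,
        ((D n).ncard : ℝ) ≤ Real.log n ^ 31 * (1 + (({r ∈ D n | Good S ω r}).ncard : ℝ))) ∧
      ∀ᵐ ω ∂μ, (chosen S ω).Infinite ∧
        (∀ a : ℕ, ∀ᶠ n : ℕ in atTop, Real.log n ^ a ≤ (({r ∈ values n | Good S ω r}).ncard : ℝ)) ∧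
        ∀ᶠ n : ℕ in atTop, ∃ k, 1 ≤ k ∧ k < n - 2 ∧
          ω ∈ S (q n k) ∧ ω ∈ S (p S ω (q n k) - q n k - 1) ∧ ω ∈ S (p S ω (q n k) - q n k + 1) := by
  classical
  have hval : ∀ n, values n = ↑((Finset.Ico 1 (n - 2)).image (qv n)) := by
    intro n
    ext r
    unfold values
    simp only [Set.mem_setOf_eq, Finset.coe_image, Finset.coe_Ico, Set.mem_image, Set.mem_Ico]
    constructor
    · rintro ⟨k, e1, e2, e3⟩; exact ⟨k, ⟨e1, e2⟩, e3⟩
    · rintro ⟨k, ⟨e1, e2⟩, e3⟩; exact ⟨k, e1, e2, e3⟩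
  have hv : ∀ a : ℕ, ∀ᶠ n : ℕ in atTop, Real.log n ^ a ≤ ((values n).ncard : ℝ) := by
    intro a
    filter_upwards [h2 h1 a] with n hn
    rw [hval, Set.ncard_coe_finset]
    exact hn
  refine ⟨hv, ?_⟩
  intro Ω mΩ μ _ S h
  have hc : Cr μ S := ⟨h.meas, h.ind, h.dens⟩
  have hD : ∀ D : ℕ → Set ℕ, (∀ n, D n ⊆ Set.Icc 1 (n + 1)) → ∀ᵐ ω ∂μ, (chosen S ω).Infinite ∧ ∀ᶠ n : ℕ in atTop,
        ((D n).ncard : ℝ) ≤ Real.log n ^ 31 * (1 + (({r ∈ D n | Good S ω r}).ncard : ℝ)) := by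
    intro D hD
    have hfin : ∀ n, (D n).Finite := fun n => (Set.finite_Icc 1 (n + 1)).subset (hD n)
    have h10 := many (μ := μ) h3 h4 h5 h6 h7 h8 h9 hc (fun n => (hfin n).toFinset) (fun n r hr => by
      have := hD n ((Set.Finite.mem_toFinset (hfin n)).1 hr)
      exact this)
    filter_upwards [h10] with ω hω
    refine ⟨hω.1, ?_⟩
    filter_upwards [hω.2] with n hn
    have e1 : (D n).ncard = ((hfin n).toFinset).card := by
      rw [Set.ncard_eq_toFinset_card (D n) (hfin n)]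
    have e2 : ({r ∈ D n | Good S ω r}).ncard = (((hfin n).toFinset).filter (fun r => Suc S ω r)).card := by
      rw [← Set.ncard_coe_finset]
      congr 1
      ext r
      simp only [Set.mem_sep_iff, Finset.coe_filter, Set.Finite.mem_toFinset, Set.mem_setOf_eq]
      rfl
    rw [e1, e2]
    exact hn
  refine ⟨fun D hDD => by filter_upwards [hD D hDD] with ω hω using hω.2, ?_⟩
  have hsub : ∀ n, (if 3 ≤ n then values n else ∅) ⊆ Set.Icc 1 (n + 1) := by
    intro n r hr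
    split_ifs at hr with hn
    · obtain ⟨k, e1, e2, rfl⟩ := hr
      unfold q
      have f1 := Nat.totient_le k
      have f2 := Nat.totient_le (n - k)
      rw [Set.mem_Icc]
      omega
    · exact hr.elim
  filter_upwards [hD _ hsub] with ω hω
  refine ⟨hω.1, ?_⟩
  have hA : ∀ a : ℕ, ∀ᶠ n : ℕ in atTop, Real.log n ^ a ≤ (({r ∈ values n | Good S ω r}).ncard : ℝ) := by
    intro a
    filter_upwards [hω.2, hv (a + 32), hlogn.eventually_ge_atTop 2, eventually_ge_atTop 3] with n e1 e2 e3 e4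
    rw [if_pos e4] at e1
    have e5 := e2.trans e1
    have hL : 0 < Real.log n := by linarith
    have e6 : Real.log n ^ (a + 1) ≤ 1 + (({r ∈ values n | Good S ω r}).ncard : ℝ) := by
      have : Real.log n ^ (a + 32) = Real.log n ^ 31 * Real.log n ^ (a + 1) := by ring
      rw [this] at e5
      exact le_of_mul_le_mul_left e5 (by positivity)
    have e7 : 1 + Real.log n ^ a ≤ Real.log n ^ (a + 1) := by
      have f1 : 1 ≤ Real.log n ^ a := one_le_pow₀ (by linarith)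
      rw [pow_succ]
      nlinarith
    linarith
  refine ⟨hA, ?_⟩
  filter_upwards [hA 0] with n hn
  rw [pow_zero] at hn
  have h11 : ({r ∈ values n | Good S ω r}).Nonempty := by
    rw [Set.nonempty_iff_ne_empty]
    intro h0
    rw [h0, Set.ncard_empty] at hn
    norm_num at hn
  obtain ⟨r, ⟨k, e1, e2, rfl⟩, e3⟩ := h11
  exact ⟨k, e1, e2, e3.1, e3.2.1, e3.2.2⟩

end Pool.Agent.U310.TQ.Pre
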