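import Mathlib
import Pool.Agent.U310.TQ.Pre
import Pool.Agent.U310.Idx.Index

set_option autoImplicit false

/-! # Project TQ: existence of the model -/

open MeasureTheory ProbabilityTheory Filter
open scoped Topology ENNReal

namespace Pool.Agent.U310.TQ.Exi

open Pool.Agent.U310.Idx (lf lf_pos lf_le lf_eq hlogn)

/-- the law of one choice -/
noncomputable def nu (n : ℕ) : Measure Bool :=
  ENNReal.ofReal (lf n) • Measure.dirac true + ENNReal.ofReal (1 - lf n) • Measure.dirac false

instance (n : ℕ) : IsProbabilityMeasure (nu n) := by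
  constructor
  unfold nu
  simp only [Measure.add_apply, Measure.smul_apply, measure_univ, smul_eq_mul, mul_one]
  rw [← ENNReal.ofReal_add (lf_pos n).le (by linarith [lf_le n])]
  simp

lemma ms (n : ℕ) : MeasurableSet {ω : ℕ → Bool | ω n = true} := by
  have h : {ω : ℕ → Bool | ω n = true} = (fun ω : ℕ → Bool => ω n) ⁻¹' {true} := rfl
  rw [h]
  exact measurable_pi_apply n (MeasurableSet.singleton true)

theorem exists_model : ∃ (Ω : Type) (mΩ : MeasurableSpace Ω) (μ : Measure Ω) (_ : IsProbabilityMeasure μ)
    (S : ℕ → Set Ω), Pre.Cramer μ S := by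
  refine ⟨ℕ → Bool, inferInstance, Measure.infinitePi nu, inferInstance, fun n => {ω | ω n = true}, ?_, ?_, ?_⟩
  · exact ms
  · rw [iIndepSet_iff_meas_biInter]
    · intro s
      have h1 : ⋂ i ∈ s, {ω : ℕ → Bool | ω i = true} = Set.pi s (fun _ => {true}) := by
        ext ω
        simp [Set.mem_pi]
      rw [h1, Measure.infinitePi_pi _ (fun _ _ => MeasurableSet.singleton true)]
      refine Finset.prod_congr rfl fun i _ => ?_
      have h2 : {ω : ℕ → Bool | ω i = true} = Set.pi ({i} : Finset ℕ) (fun _ => {true}) := by
        ext ω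
        simp [Set.mem_pi]
      rw [h2, Measure.infinitePi_pi _ (fun _ _ => MeasurableSet.singleton true)]
      simp
    · exact ms
  · have h : ∀ n, (Measure.infinitePi nu).real {ω : ℕ → Bool | ω n = true} = lf n := by
      intro n
      have h2 : {ω : ℕ → Bool | ω n = true} = Set.pi ({n} : Finset ℕ) (fun _ => {true}) := by
        ext ω
        simp [Set.mem_pi]
      rw [Measure.real, h2, Measure.infinitePi_pi _ (fun _ _ => MeasurableSet.singleton true)]
      simp only [Finset.prod_singleton]
      unfold nu
      simp [(lf_pos n).le]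
    simp_rw [h]
    refine tendsto_const_nhds.congr' ?_
    filter_upwards [eventually_ge_atTop 3, hlogn.eventually_gt_atTop 0] with n hn hL
    rw [lf_eq hn]
    field_simp

end Pool.Agent.U310.TQ.Exi
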